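import Pool.Agent.J4.H25.Gl.Fin
import Pool.Agent.Y939.NC.Reg
import Pool.Agent.TH641.EN.E

set_option autoImplicit false

/-!
# The class of the vectors obtained by gluing
-/

namespace Pool.Agent.J4.H25.Gl

open Finset Pool.Agent.TH176.Nag Pool.Agent.TH603.Sur Pool.Agent.TH641.UM Pool.Agent.TH2.NU
  Pool.Agent.H932R3

/-- one point -/
theorem sgn_point (b d : ℕ) : Sgn {b} d := by
  rcases Nat.lt_or_ge d b with h | h
  · have h1 : Emp (fun _ : Fin 1 => b) (TZ d) := by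
      refine Pool.Agent.TH641.EN.Emp_one fun y B hB k hk => ?_
      obtain ⟨x, hx⟩ := Finset.card_pos.1 (Nat.lt_of_le_of_lt (Nat.zero_le _) hk)
      obtain ⟨_, h2, _⟩ := hB x hx
      simp only at h2
      refine ⟨h2, ?_⟩
      have h3 : B ⊆ Finset.Icc (0 : ℤ) (d - y) := by
        intro z hz
        obtain ⟨h4, _, h5⟩ := hB z hz
        simp only at h4 h5
        rw [Finset.mem_Icc]
        omega
      have h4 := Finset.card_le_card h3
      rw [Int.card_Icc] at h4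
      have h5 := hB x hx
      obtain ⟨h6, _, h7⟩ := h5
      simp only at h6 h7
      omega
    refine Sgn_of_or (Or.inl ((EmpM_iff (w := fun _ : Fin 1 => b) ?_ _).2 h1))
    rw [ms_fin, one_smul]
  · have h1 := sgn_nine (r := 1) (d := d) (fun _ => b) (fun _ => b) (fun _ => le_rfl)
      (fun T _ => by
        rw [Finset.sum_const, smul_eq_mul]
        have : T.card ≤ 1 := by
          have := Finset.card_le_univ T
          simpa using this
        nlinarith) (by
        refine (Finset.card_le_univ _).trans ?_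
        simp)
    simpa using h1

/-- one more simple point -/
theorem sgn_simple {M : Multiset ℕ} {d : ℕ} (h : Sgn M d) : Sgn (M + {1}) d := by
  rcases Sgn_or h with h1 | h1
  · exact Sgn_of_or (Or.inl (h1.mono (Multiset.le_add_right _ _)))
  · rcases Nat.lt_or_ge (TH2.NU.condM M) ((d + 2).choose 2) with h2 | h2
    · obtain ⟨p, hp⟩ : ∃ p, TH2.NU.condM M + (p + 1) = (d + 2).choose 2 :=
        ⟨(d + 2).choose 2 - TH2.NU.condM M - 1, by omega⟩
      have h3 := EmpM_ones h1 hp.ge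
      refine Sgn_of_or (Or.inr (SurM_of_ones (p := p) (h3.mono (le_of_eq ?_)) ?_))
      · rw [add_smul, one_smul]
        abel
      · rw [condM_add, condM_single]
        have : (1 + 1).choose 2 = 1 := rfl
        omega
    · exact Sgn_of_or (Or.inl ((h.1 h2).mono (Multiset.le_add_right _ _)))

/-- from general points over a field -/
theorem sgn_of_exp {n : ℕ} {w : Fin n → ℕ} {d : ℕ}
    (h : ∃ F : MvPolynomial (Fin n × Fin 2) ℚ, F ≠ 0 ∧ ∀ P : Fin n → Fin 2 → ℂ,
      MvPolynomial.aeval (fun ij : Fin n × Fin 2 => P ij.1 ij.2) F ≠ 0 → ExpDim ℂ w P d) :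
    Sgn (ms w) d := by
  obtain ⟨F, hF, hF'⟩ := h
  obtain ⟨P, hP, hPF⟩ := exists_pt (map_ne_zero_of hF)
  rw [MvPolynomial.eval_map] at hPF
  have h1 := hF' P hPF
  refine Sgn_of_or ?_
  rcases emp_or_sur hP (le_of_eq h1) with h | h
  · exact Or.inl ((EmpM_ms _ _).2 h)
  · exact Or.inr ((SurM_ms _ _).2 h)

/-- The numbers of the groups. -/
def Num (N0 r : ℕ) : Prop :=
  N0 ≤ r ∨ (144 ≤ r ∧ 4 ∣ r) ∨ ∃ j, r = 4 ^ (j + 1) ∨ r = 9 * 4 ^ j ∨ r = 13 * 4 ^ j

theorem sgn_reg {N0 : ℕ} (hN : Pool.Agent.Y939.NC.RegExp N0) {k : ℕ} {v : Fin k → ℕ}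
    (hv : Pool.Agent.Y939.NC.Regular N0 v) (d : ℕ) : Sgn (∑ i, {v i}) d := by
  obtain ⟨F, hF, hF'⟩ := hN k v hv ℂ
  exact sgn_of_exp ⟨F, hF, fun P hP => hF' P hP d⟩

/-- nearly equal parents -/
theorem sgn_num {N0 : ℕ} (hN : Pool.Agent.Y939.NC.RegExp N0) {r b : ℕ} (hr : Num N0 r)
    (hb : 1 ≤ b) (u : Fin r → ℕ) (hu : ∀ i, u i = b ∨ u i = b + 1) (d : ℕ) :
    Sgn (∑ i, {u i}) d := by
  rcases hr with h | h | ⟨j, rfl | rfl | rfl⟩
  · exact sgn_reg hN (Or.inr (Or.inl ⟨Or.inl h, b, hb, hu⟩)) d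
  · exact sgn_reg hN (Or.inr (Or.inl ⟨Or.inr (Or.inl h), b, hb, hu⟩)) d
  · have h := Pool.Agent.TH759.EV.NU_pow Pool.Agent.TH759.EV.NU_four j
    rw [show 4 * 4 ^ j = 4 ^ (j + 1) by ring] at h
    exact sgn_near h hb u hu d
  · exact sgn_near (Pool.Agent.TH759.EV.NU_pow Pool.Agent.TH759.EV.NU_nine j) hb u hu d
  · exact sgn_near (Pool.Agent.TH759.EV.NU_pow Pool.Agent.TH759.EV.NU_thirteen j) hb u hu d

/-- The number of conditions. -/
def cnd (M : Multiset ℕ) : ℕ := (M.map fun a => (a + 1).choose 2).sum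

/-- The class. -/
inductive Rg (N0 : ℕ) : Multiset ℕ → Prop
  | point (b : ℕ) : Rg N0 {b}
  | base {k : ℕ} (v : Fin k → ℕ) (h : Pool.Agent.Y939.NC.Regular N0 v) : Rg N0 (∑ i, {v i})
  | simple {M : Multiset ℕ} (h : Rg N0 M) : Rg N0 (M + {1})
  | glue {r b : ℕ} (v : Fin r → Multiset ℕ) (hr : Num N0 r) (hb : 1 ≤ b)
      (h : ∀ i, Rg N0 (v i)) (h1 : ∀ i, (b + 1).choose 2 ≤ cnd (v i))
      (h2 : ∀ i, cnd (v i) ≤ (b + 2).choose 2) : Rg N0 (∑ i, v i)

theorem Rg.sgn {N0 : ℕ} (hN : Pool.Agent.Y939.NC.RegExp N0) {M : Multiset ℕ} (h : Rg N0 M) :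
    ∀ d, Sgn M d := by
  induction h with
  | point b => exact sgn_point b
  | base v h => exact sgn_reg hN h
  | simple h ih => exact fun d => sgn_simple (ih d)
  | glue v hr hb h h1 h2 ih =>
    intro d
    exact glue_all v (fun _ => _) (fun i => ⟨h1 i, h2 i, fun e _ => ih i e⟩)
      fun u hu => sgn_num hN hr hb u hu d

/-- groups of arbitrary sizes with at most nine sizes larger than two -/
theorem sgn_groups {r d : ℕ} (v : Fin r → Multiset ℕ) (c : Fin r → ℕ)
    (hv : ∀ i e, (e + 1 = c i ∨ e + 2 = c i) → Sgn (v i) e)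
    (h1 : ∀ i, (c i).choose 2 ≤ cnd (v i))
    (h2 : ∀ i, cnd (v i) ≤ (c i + 1).choose 2)
    (hT : ∀ T : Finset (Fin r), T.card ≤ 3 → ∑ i ∈ T, c i ≤ d)
    (h9 : (univ.filter fun i => 2 < c i).card ≤ 9) : Sgn (∑ i, v i) d := by
  classical
  refine glue_set v (fun i => c i - 1) (univ.filter fun i => 0 < c i) (fun i hi => ?_)
    (fun i hi => ?_) fun u hu hu0 => ?_
  · have h0 := (Finset.mem_filter.1 hi).2
    refine ⟨?_, ?_, fun e he => hv i e (by omega)⟩
    · rw [show c i - 1 + 1 = c i by omega]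
      exact h1 i
    · rw [show c i - 1 + 2 = c i + 1 by omega]
      exact h2 i
  · have h0 : c i = 0 := by
      by_contra hne
      exact hi (Finset.mem_filter.2 ⟨mem_univ _, Nat.pos_of_ne_zero hne⟩)
    have h3 := h2 i
    rw [h0] at h3
    exact Nat.le_zero.1 h3
  · refine sgn_nine u c (fun i => ?_) hT h9
    rcases Nat.eq_zero_or_pos (c i) with h0 | h0
    · rw [hu0 i fun hi => by
        have := (Finset.mem_filter.1 hi).2
        omega]
      exact Nat.zero_le _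
    · rcases hu i (Finset.mem_filter.2 ⟨mem_univ _, h0⟩) with h3 | h3
      · rw [h3]
        omega
      · rw [h3]
        omega

end Pool.Agent.J4.H25.Gl
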