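import Pool.Agent.TH545.Nag.Euc
import Pool.Agent.TH772.QB.Conv
import Pool.Agent.TH641.UM.Ones
import Pool.Agent.H932R3.Finals

set_option autoImplicit false

/-!
# From the dimension of the space of forms to emptiness or independence
-/

namespace Pool.Agent.J4.H25.Gl

open Finset Polynomial Pool.Agent.TH176.Nag Pool.Agent.TH603.Sur Pool.Agent.H932R2
  Pool.Agent.H932R3

section
variable {K : Type} [Field K]

/-- The polynomial of a Laurent polynomial, as a linear map. -/
noncomputable def tk (K : Type) [Field K] : ((ℤ × ℤ) →₀ K) →ₗ[K] K[X][X] :=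
  Finsupp.linearCombination K fun m : ℤ × ℤ => Pool.Agent.H932R2.mon K (m.1.toNat, m.2.toNat)

theorem tk_apply (f : (ℤ × ℤ) →₀ K) : tk K f = Pool.Agent.TH545.Nag.toKXX f := by
  unfold tk Pool.Agent.TH545.Nag.toKXX
  rw [Finsupp.linearCombination_apply]
  rfl

/-- The dimension of the space of the forms (as polynomials of degree at most `d`). -/
theorem forms_rank {n : ℕ} (w : Fin n → ℕ) (P : Fin n → Fin 2 → K) (d : ℕ) :
    Module.finrank K ↥(MvPolynomial.homogeneousSubmodule (Fin 3) K d ⊓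
      Submodule.restrictScalars K (⨅ i : Fin n, (Ideal.span
        ({MvPolynomial.X 0 - MvPolynomial.C (P i 0) * MvPolynomial.X 2,
          MvPolynomial.X 1 - MvPolynomial.C (P i 1) * MvPolynomial.X 2} :
            Set (MvPolynomial (Fin 3) K))) ^ (w i))) =
    Module.finrank K ↥(mspan K (Tset d) ⊓ Submodule.restrictScalars K
      (vIdeal 1 w (fun a => P a 0) (fun a => C (P a 1)))) := by
  refine finrank_forms _ _ fun F hF => ?_
  rw [Submodule.restrictScalars_mem, Submodule.restrictScalars_mem]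
  unfold vIdeal
  rw [Ideal.mem_iInf, Ideal.mem_iInf]
  exact forall_congr' fun i => mem_ptIdeal_iff hF

theorem VS_le [CharZero K] {n : ℕ} (w : Fin n → ℕ) {P : Fin n → Fin 2 → K}
    (hP : ∀ i j, P i j ≠ 0) (d : ℕ) :
    Module.finrank K (Pool.Agent.TH772.QB.VS (fun i => P i 0) (fun i => P i 1) w (TZ d)) ≤
      Module.finrank K ↥(mspan K (Tset d) ⊓ Submodule.restrictScalars K
        (vIdeal 1 w (fun a => P a 0) (fun a => C (P a 1)))) := by
  classical
  have hfin : FiniteDimensional K ↥(mspan K (Tset d)) := by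
    unfold mspan
    refine FiniteDimensional.span_of_finite K (Set.Finite.image _ ?_)
    rw [← coe_Tfin]
    exact (Tfin d).finite_toSet
  have hfin2 : FiniteDimensional K ↥(mspan K (Tset d) ⊓ Submodule.restrictScalars K
        (vIdeal 1 w (fun a => P a 0) (fun a => C (P a 1)))) :=
    Submodule.finiteDimensional_of_le inf_le_left
  have hmem : ∀ f ∈ Pool.Agent.TH772.QB.VS (fun i => P i 0) (fun i => P i 1) w (TZ d),
      tk K f ∈ mspan K (Tset d) ⊓ Submodule.restrictScalars K
        (vIdeal 1 w (fun a => P a 0) (fun a => C (P a 1))) := by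
    rintro f ⟨h1, h2⟩
    have hpos : ∀ m ∈ f.support, 0 ≤ m.1 ∧ 0 ≤ m.2 := fun m hm =>
      ⟨(h1 hm).1, (h1 hm).2.1⟩
    rw [tk_apply]
    refine ⟨?_, ?_⟩
    · refine Submodule.sum_mem _ fun m hm => Submodule.smul_mem _ _
        (Submodule.subset_span ⟨_, ?_, rfl⟩)
      obtain ⟨a1, a2, a3⟩ := h1 hm
      show m.1.toNat + m.2.toNat ≤ d
      omega
    · rw [SetLike.mem_coe, Submodule.restrictScalars_mem]
      unfold vIdeal
      rw [Ideal.mem_iInf]
      exact fun i => Pool.Agent.TH545.Nag.mem_of_LM hpos (hP i 0) (hP i 1) (h2 i)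
  let φ : Pool.Agent.TH772.QB.VS (fun i => P i 0) (fun i => P i 1) w (TZ d) →ₗ[K]
      ↥(mspan K (Tset d) ⊓ Submodule.restrictScalars K
        (vIdeal 1 w (fun a => P a 0) (fun a => C (P a 1)))) :=
    LinearMap.codRestrict _ ((tk K).comp (Submodule.subtype _)) fun f => hmem f.1 f.2
  refine LinearMap.finrank_le_finrank_of_injective (f := φ) ?_
  rw [injective_iff_map_eq_zero]
  intro f hf
  have h0 : tk K (f : (ℤ × ℤ) →₀ K) = 0 := congrArg Subtype.val hf
  rw [tk_apply] at h0
  have h1 := f.2.1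
  have hpos : ∀ m ∈ (f : (ℤ × ℤ) →₀ K).support, 0 ≤ m.1 ∧ 0 ≤ m.2 := fun m hm =>
    ⟨(h1 hm).1, (h1 hm).2.1⟩
  refine Subtype.ext ?_
  ext m
  by_cases hm : m ∈ (f : (ℤ × ℤ) →₀ K).support
  · have := Pool.Agent.TH545.Nag.coeff_toKXX hpos hm
    rw [h0] at this
    simpa using this.symm
  · simpa using hm

/-- **From the dimension of the forms at one configuration.** -/
theorem emp_or_sur [CharZero K] {n : ℕ} {w : Fin n → ℕ} {P : Fin n → Fin 2 → K}
    (hP : ∀ i j, P i j ≠ 0) {d : ℕ}
    (h : Module.finrank K ↥(MvPolynomial.homogeneousSubmodule (Fin 3) K d ⊓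
      Submodule.restrictScalars K (⨅ i : Fin n, (Ideal.span
        ({MvPolynomial.X 0 - MvPolynomial.C (P i 0) * MvPolynomial.X 2,
          MvPolynomial.X 1 - MvPolynomial.C (P i 1) * MvPolynomial.X 2} :
            Set (MvPolynomial (Fin 3) K))) ^ (w i))) ≤
      (d + 2).choose 2 - ∑ i, (w i + 1).choose 2) : Emp w (TZ d) ∨ Sur w (TZ d) := by
  rw [forms_rank] at h
  have h1 := Pool.Agent.TH772.QB.Emp_of_finrank (fun i => hP i 0) (fun i => hP i 1) (TZ_finite d)
    ((VS_le w hP d).trans h)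
  rcases le_total ((d + 2).choose 2) (∑ i, (w i + 1).choose 2) with h2 | h2
  · left
    rw [Nat.sub_eq_zero_of_le h2] at h1
    exact Emp_zero_iff.1 h1
  · right
    refine Pool.Agent.TH641.UM.Sur_of_ones h1 ?_
    unfold Pool.Agent.TH603.Sur.cond
    omega

end

end Pool.Agent.J4.H25.Gl
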