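import Pool.Agent.J4.H25.Gl.Nine

set_option autoImplicit false

/-!
# Translation to general points
-/

namespace Pool.Agent.J4.H25.Gl

open Finset Pool.Agent.TH176.Nag Pool.Agent.TH603.Sur Pool.Agent.TH641.UM Pool.Agent.TH2.NU
  Pool.Agent.H932R3

/-- Forms of degree `d` vanishing to order at least `w i` at the points `(P i 0 : P i 1 : 1)`. -/
noncomputable def fm {ι : Type} (P : ι → Fin 2 → ℂ) (d : ℕ) (w : ι → ℕ) :
    Submodule ℂ (MvPolynomial (Fin 3) ℂ) :=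
  MvPolynomial.homogeneousSubmodule (Fin 3) ℂ d ⊓
    Submodule.restrictScalars ℂ
      (⨅ i : ι, (Ideal.span {MvPolynomial.X 0 - MvPolynomial.C (P i 0) * MvPolynomial.X 2,
        MvPolynomial.X 1 - MvPolynomial.C (P i 1) * MvPolynomial.X 2} :
          Ideal (MvPolynomial (Fin 3) ℂ)) ^ (w i))

theorem fm_equiv {ι κ : Type} (e : ι ≃ κ) (P : ι → Fin 2 → ℂ) (d : ℕ) (w : ι → ℕ) :
    fm (fun k => P (e.symm k)) d (fun k => w (e.symm k)) = fm P d w := by
  unfold fm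
  congr 2
  exact e.symm.iInf_comp (g := fun i : ι =>
    (Ideal.span {MvPolynomial.X 0 - MvPolynomial.C (P i 0) * MvPolynomial.X 2,
        MvPolynomial.X 1 - MvPolynomial.C (P i 1) * MvPolynomial.X 2} :
          Ideal (MvPolynomial (Fin 3) ℂ)) ^ (w i))

theorem ms_equiv {ι κ : Type} [Fintype ι] [Fintype κ] (e : ι ≃ κ) (w : ι → ℕ) :
    ms (fun k => w (e.symm k)) = ms w := by
  unfold ms
  exact Equiv.sum_comp e.symm (fun i => ({w i} : Multiset ℕ))

/-- a point where finitely many polynomials do not vanish, with nonzero coordinates -/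
theorem exists_pt {ι : Type} [Fintype ι] {F : MvPolynomial (ι × Fin 2) ℂ} (hF : F ≠ 0) :
    ∃ P : ι → Fin 2 → ℂ, (∀ i j, P i j ≠ 0) ∧
      MvPolynomial.eval (fun q : ι × Fin 2 => P q.1 q.2) F ≠ 0 := by
  classical
  have h1 : F * ∏ q : ι × Fin 2, MvPolynomial.X q ≠ 0 :=
    mul_ne_zero hF (Finset.prod_ne_zero_iff.2 fun q _ => MvPolynomial.X_ne_zero q)
  obtain ⟨x, hx⟩ : ∃ x : ι × Fin 2 → ℂ,
      MvPolynomial.eval x (F * ∏ q : ι × Fin 2, MvPolynomial.X q) ≠ 0 := by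
    by_contra hcon
    push Not at hcon
    exact h1 (MvPolynomial.funext fun x => by rw [hcon x, map_zero])
  rw [map_mul, map_prod] at hx
  refine ⟨fun i j => x (i, j), fun i j => ?_, left_ne_zero_of_mul hx⟩
  have h2 := Finset.prod_ne_zero_iff.1 (right_ne_zero_of_mul hx) (i, j) (mem_univ _)
  rwa [MvPolynomial.eval_X] at h2

/-- the expected dimension at general points -/
def NS {ι : Type} [Fintype ι] (d : ℕ) (w : ι → ℕ) : Prop :=
  ∃ F : MvPolynomial (ι × Fin 2) ℂ, F ≠ 0 ∧ ∀ P : ι → Fin 2 → ℂ,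
    MvPolynomial.eval (fun q : ι × Fin 2 => P q.1 q.2) F ≠ 0 →
      Module.finrank ℂ ↥(fm P d w) = (d + 2).choose 2 - ∑ i, (w i + 1).choose 2

theorem NS.sgn {ι : Type} [Fintype ι] {d : ℕ} {w : ι → ℕ} (h : NS d w) : Sgn (ms w) d := by
  obtain ⟨F, hF, hF'⟩ := h
  obtain ⟨P, hP, hPF⟩ := exists_pt hF
  have h1 := hF' P hPF
  let e := Fintype.equivFin ι
  rw [← fm_equiv e P d w, ← Equiv.sum_comp e.symm] at h1
  have h2 := emp_or_sur (w := fun k => w (e.symm k)) (P := fun k => P (e.symm k)) (d := d)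
    (fun i j => hP _ _) (le_of_eq h1)
  rw [← ms_equiv e w]
  refine Sgn_of_or ?_
  rcases h2 with h | h
  · exact Or.inl ((EmpM_ms _ _).2 h)
  · exact Or.inr ((SurM_ms _ _).2 h)

/-- for general points, all degrees at once -/
def NSA {ι : Type} [Fintype ι] (w : ι → ℕ) : Prop :=
  ∃ F : MvPolynomial (ι × Fin 2) ℂ, F ≠ 0 ∧ ∀ P : ι → Fin 2 → ℂ,
    MvPolynomial.eval (fun q : ι × Fin 2 => P q.1 q.2) F ≠ 0 →
      ∀ d : ℕ, Module.finrank ℂ ↥(fm P d w) = (d + 2).choose 2 - ∑ i, (w i + 1).choose 2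

theorem back {ι : Type} [Fintype ι] {w : ι → ℕ} {A : ℕ → Prop} {n : ℕ} (e : ι ≃ Fin n)
    (h : ∃ F : MvPolynomial (Fin n × Fin 2) ℚ, F ≠ 0 ∧ ∀ {L : Type} [Field L] [CharZero L]
      (P : Fin n → Fin 2 → L), MvPolynomial.aeval (fun ij : Fin n × Fin 2 => P ij.1 ij.2) F ≠ 0 →
      ∀ d, A d → ExpDim L (fun k => w (e.symm k)) P d) :
    ∃ F : MvPolynomial (ι × Fin 2) ℂ, F ≠ 0 ∧ ∀ P : ι → Fin 2 → ℂ,
      MvPolynomial.eval (fun q : ι × Fin 2 => P q.1 q.2) F ≠ 0 →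
      ∀ d : ℕ, A d → Module.finrank ℂ ↥(fm P d w) = (d + 2).choose 2 - ∑ i, (w i + 1).choose 2 := by
  obtain ⟨F, hF, hF'⟩ := h
  have hinj : Function.Injective (Prod.map e.symm id : Fin n × Fin 2 → ι × Fin 2) :=
    e.symm.injective.prodMap Function.injective_id
  refine ⟨MvPolynomial.rename (Prod.map e.symm id) (F.map (algebraMap ℚ ℂ)), ?_,
    fun P hP d hd => ?_⟩
  · rw [Ne, MvPolynomial.rename_eq_zero_iff_of_injective _ hinj]
    exact map_ne_zero_of hF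
  · rw [MvPolynomial.eval_rename, MvPolynomial.eval_map] at hP
    have h1 := hF' (fun k => P (e.symm k)) (by
      rw [MvPolynomial.aeval_def]
      exact hP) d hd
    rw [← fm_equiv e P d w, ← Equiv.sum_comp e.symm]
    exact h1

theorem Sgn.ns {ι : Type} [Fintype ι] {d : ℕ} {w : ι → ℕ} (h : Sgn (ms w) d) : NS d w := by
  let e := Fintype.equivFin ι
  rw [← ms_equiv e w] at h
  have h1 : ∃ F : MvPolynomial (Fin (Fintype.card ι) × Fin 2) ℚ, F ≠ 0 ∧
      ∀ {L : Type} [Field L] [CharZero L] (P : Fin (Fintype.card ι) → Fin 2 → L),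
      MvPolynomial.aeval (fun ij : Fin (Fintype.card ι) × Fin 2 => P ij.1 ij.2) F ≠ 0 →
      ∀ e', e' = d → ExpDim L (fun k => w (e.symm k)) P e' := by
    rcases Sgn_or h with h2 | h2
    · obtain ⟨F, hF, hF'⟩ := full_open ((EmpM_ms _ _).1 h2)
      exact ⟨F, hF, fun P hP e' he => hF' P hP e' he.le⟩
    · obtain ⟨F, hF, hF'⟩ := indep_open ((SurM_ms _ _).1 h2)
      exact ⟨F, hF, fun P hP e' he => hF' P hP e' he.ge⟩
  obtain ⟨F, hF, hF'⟩ := back e h1
  exact ⟨F, hF, fun P hP => hF' P hP d rfl⟩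

theorem NS_iff {ι : Type} [Fintype ι] {d : ℕ} {w : ι → ℕ} : NS d w ↔ Sgn (ms w) d :=
  ⟨NS.sgn, Sgn.ns⟩

theorem NSA_of {ι : Type} [Fintype ι] {w : ι → ℕ} (h : ∀ d, Sgn (ms w) d) : NSA w := by
  let e := Fintype.equivFin ι
  rw [← ms_equiv e w] at h
  have hc : cond (fun k => w (e.symm k)) = TH2.NU.condM (ms fun k => w (e.symm k)) := cond_condM _
  obtain ⟨F, hF, hF'⟩ := expDim_of_sign (w := fun k => w (e.symm k))
    (fun d hd => (EmpM_ms _ _).1 ((h d).1 (by rw [← hc]; exact hd)))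
    (fun d hd => (SurM_ms _ _).1 ((h d).2 (by rw [← hc]; exact hd)))
  obtain ⟨F', h1, h2⟩ := back (A := fun _ => True) e
    ⟨F, hF, fun P hP d _ => hF' P hP d⟩
  exact ⟨F', h1, fun P hP d => h2 P hP d trivial⟩

theorem NSA.ns {ι : Type} [Fintype ι] {w : ι → ℕ} (h : NSA w) (d : ℕ) : NS d w := by
  obtain ⟨F, hF, hF'⟩ := h
  exact ⟨F, hF, fun P hP => hF' P hP d⟩

/-- the multiset of the values is the sum over the fibres -/
theorem ms_fib {ι κ : Type} [Fintype ι] [Fintype κ] [DecidableEq κ] (w : ι → ℕ) (g : ι → κ) :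
    ms w = ∑ k, ms (fun p : {p // g p = k} => w p) := by
  unfold ms
  rw [← Fintype.sum_fiberwise g]

/-- **Gluing, one degree.** -/
theorem ns_glue {ι : Type} [Fintype ι] {r d : ℕ} {w : ι → ℕ} (g : ι → Fin r) (b : Fin r → ℕ)
    (h1 : ∀ k, (b k + 1).choose 2 ≤ ∑ p : {p // g p = k}, (w p + 1).choose 2)
    (h2 : ∀ k, ∑ p : {p // g p = k}, (w p + 1).choose 2 ≤ (b k + 2).choose 2)
    (h3 : ∀ k e, (e = b k ∨ e + 1 = b k) → NS e (fun p : {p // g p = k} => w p))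
    (h : ∀ u : Fin r → ℕ, (∀ k, u k = b k ∨ u k = b k + 1) → NS d u) : NS d w := by
  classical
  rw [NS_iff, ms_fib w g]
  refine glue_all _ b (fun k => ⟨?_, ?_, fun e he => (h3 k e he).sgn⟩) fun u hu => (h u hu).sgn
  · rw [← cond_condM]
    exact h1 k
  · rw [← cond_condM]
    exact h2 k

end Pool.Agent.J4.H25.Gl
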