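import Pool.Agent.TH2.NU.Crit
import Pool.Agent.TH105.N13.All
import Pool.Agent.TH745.MN.Calc
import Pool.Agent.TH864.SX.Thirteen

set_option autoImplicit false

/-!
# Replacing points by groups of points

The expected dimension in one degree (`Sgn M d`) for a multiset `M` of multiplicities. A point of
multiplicity `D` or `D + 1` can be replaced by a group `v` with at least `(D + 1).choose 2` and at most
`(D + 2).choose 2` conditions which is of expected dimension in the degrees `D - 1` and `D`.
-/

namespace Pool.Agent.J4.H25.Gl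

open Finset Pool.Agent.TH176.Nag Pool.Agent.TH603.Sur Pool.Agent.TH641.UM Pool.Agent.TH2.NU

/-- `Sgn` from emptiness or independence -/
theorem Sgn_of_or {M : Multiset ℕ} {d : ℕ} (h : EmpM M (TZ d) ∨ SurM M (TZ d)) : Sgn M d := by
  have h2 := Pool.Agent.TH864.SX.ED_of_or (w := fun i : Fin M.toList.length => M.toList.get i) (d := d) h
  rw [cond_condM, ms_toList] at h2
  exact h2

theorem Sgn_or {M : Multiset ℕ} {d : ℕ} (h : Sgn M d) : EmpM M (TZ d) ∨ SurM M (TZ d) := by
  rcases le_total ((d + 2).choose 2) (TH2.NU.condM M) with h1 | h1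
  · exact Or.inl (h.1 h1)
  · exact Or.inr (h.2 h1)

theorem Sgn_iff {M : Multiset ℕ} {d : ℕ} : Sgn M d ↔ (EmpM M (TZ d) ∨ SurM M (TZ d)) :=
  ⟨Sgn_or, Sgn_of_or⟩

theorem EmpM_ones {M : Multiset ℕ} {d p : ℕ} (h : SurM M (TZ d))
    (hp : (d + 2).choose 2 ≤ TH2.NU.condM M + p) : EmpM (M + p • {1}) (TZ d) := by
  have h1 := Emp_ones (w := fun i : Fin M.toList.length => M.toList.get i) (d := d) (p := p) h
    (by rw [cond_condM, ms_toList]; exact hp)
  exact (EmpM_iff (by rw [ms_sum, ms_fin, ms_toList]) _).2 h1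

theorem SurM_of_ones {M : Multiset ℕ} {d p : ℕ} (h : EmpM (M + p • {1}) (TZ d))
    (hp : TH2.NU.condM M + p ≤ (d + 2).choose 2) : SurM M (TZ d) := by
  have h1 := (EmpM_iff (w := Sum.elim (fun i : Fin M.toList.length => M.toList.get i)
    (fun _ : Fin p => 1)) (by rw [ms_sum, ms_fin, ms_toList]) _).1 h
  exact Sur_of_ones h1 (by rw [cond_condM, ms_toList]; exact hp)

/-- enough simple points -/
theorem Sgn_ones {M : Multiset ℕ} {d p : ℕ} (h : Sgn M d) (hp : (d + 2).choose 2 ≤ TH2.NU.condM M + p) :
    EmpM (M + p • {1}) (TZ d) := by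
  rcases Sgn_or h with h1 | h1
  · exact h1.mono (Multiset.le_add_right _ _)
  · exact EmpM_ones h1 hp

theorem ch_succ (D : ℕ) : (D + 1).choose 2 + (D + 1) = (D + 2).choose 2 := by
  have h := Nat.choose_succ_succ' (D + 1) 1
  rw [Nat.choose_one_right] at h
  have e : (D + 1).choose (1 + 1) = (D + 1).choose 2 := rfl
  have e' : (D + 1 + 1).choose (1 + 1) = (D + 2).choose 2 := rfl
  omega

/-- **One point is replaced by a group.** -/
theorem glue {v M : Multiset ℕ} {D d : ℕ} (hD : 1 ≤ D) (h1 : (D + 1).choose 2 ≤ TH2.NU.condM v)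
    (h2 : TH2.NU.condM v ≤ (D + 2).choose 2) (hE : EmpM v (TZ (D - 1))) (hS : SurM v (TZ D))
    (a : Sgn ({D} + M) d) (b : Sgn ({D + 1} + M) d) : Sgn (v + M) d := by
  have hch := ch_succ D
  obtain ⟨p, hp⟩ : ∃ p, TH2.NU.condM v + p = (D + 2).choose 2 := ⟨_, Nat.add_sub_of_le h2⟩
  obtain ⟨q, hq⟩ : ∃ q, p + q = D + 1 := ⟨D + 1 - p, by omega⟩
  have key : ∀ c : ℕ, (d + 2).choose 2 ≤ TH2.NU.condM (v + M) + c → EmpM (v + M + c • {1}) (TZ d) := by
    intro c hc
    rw [condM_add] at hc
    have g1 : EmpM (v + p • {1}) (TZ D) := EmpM_ones hS hp.ge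
    have g3 : EmpM ({D} + (M + c • {1}) + q • {1}) (TZ d) := by
      have := Sgn_ones a (p := c + q) (by rw [condM_add, condM_single]; omega)
      refine this.mono (le_of_eq ?_)
      rw [add_smul]
      abel
    have g4 : EmpM ({D + 1} + (M + c • {1})) (TZ d) := by
      have := Sgn_ones b (p := c) (by
        rw [condM_add, condM_single]
        have : (D + 1 + 1).choose 2 = (D + 2).choose 2 := rfl
        omega)
      refine this.mono (le_of_eq ?_)
      abel
    have g5 := match_M Pool.Agent.TH105.N13.matchE hD hq.le g1 hE g3 g4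
    refine g5.mono (le_of_eq ?_)
    abel
  refine ⟨fun h => ?_, fun h => ?_⟩
  · have := key 0 (by omega)
    simpa using this
  · exact SurM_of_ones (key ((d + 2).choose 2 - TH2.NU.condM (v + M)) (by omega)) (by omega)

theorem Sgn_zero {M : Multiset ℕ} {d : ℕ} : Sgn (M + {0}) d ↔ Sgn M d := by
  rw [Sgn_iff, Sgn_iff, Pool.Agent.TH745.MN.EmpM_zero, Pool.Agent.TH745.MN.SurM_zero]

theorem condM_cons (a : ℕ) (M : Multiset ℕ) : TH2.NU.condM (a ::ₘ M) = (a + 1).choose 2 + TH2.NU.condM M := by
  unfold TH2.NU.condM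
  rw [Multiset.map_cons, Multiset.sum_cons]

theorem Sgn_zeros {v M : Multiset ℕ} {d : ℕ} (hv : TH2.NU.condM v = 0) : Sgn (v + M) d ↔ Sgn M d := by
  induction v using Multiset.induction with
  | empty => rw [zero_add]
  | cons a v ih =>
    rw [condM_cons] at hv
    have ha : a = 0 := by
      by_contra h
      have : 0 < (a + 1).choose 2 := Nat.choose_pos (by omega)
      omega
    subst ha
    rw [Multiset.cons_add, ← Multiset.singleton_add, add_comm, Sgn_zero]
    exact ih (by omega)

theorem exists_one {v : Multiset ℕ} (hv : TH2.NU.condM v = 1) : ∃ v', v = {1} + v' ∧ TH2.NU.condM v' = 0 := by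
  induction v using Multiset.induction with
  | empty => simp [TH2.NU.condM] at hv
  | cons a v ih =>
    rw [condM_cons] at hv
    rcases Nat.lt_or_ge a 2 with h | h
    · have : a = 0 ∨ a = 1 := by omega
      rcases this with rfl | rfl
      · obtain ⟨v', rfl, hv'⟩ := ih (by simpa using hv)
        exact ⟨0 ::ₘ v', by rw [Multiset.singleton_add, Multiset.singleton_add, Multiset.cons_swap],
          by rw [condM_cons, hv']; rfl⟩
      · refine ⟨v, by rw [Multiset.singleton_add], ?_⟩
        have : (1 + 1).choose 2 = 1 := rfl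
        omega
    · have : 3 ≤ (a + 1).choose 2 := by
        calc 3 = (3).choose 2 := rfl
          _ ≤ (a + 1).choose 2 := Nat.choose_le_choose 2 (by omega)
      omega

/-- A group: the number `b` with `(b + 1).choose 2 ≤ cond v ≤ (b + 2).choose 2`, and the expected
dimension in the degrees `b - 1` and `b`. -/
def Grp (b : ℕ) (v : Multiset ℕ) : Prop :=
  (b + 1).choose 2 ≤ TH2.NU.condM v ∧ TH2.NU.condM v ≤ (b + 2).choose 2 ∧ ∀ e, (e = b ∨ e + 1 = b) → Sgn v e

theorem glue' {v M : Multiset ℕ} {D d : ℕ} (h : Grp D v) (a : Sgn ({D} + M) d)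
    (b : Sgn ({D + 1} + M) d) : Sgn (v + M) d := by
  obtain ⟨h1, h2, h3⟩ := h
  rcases Nat.eq_zero_or_pos D with rfl | hD
  · have h4 : TH2.NU.condM v ≤ 1 := h2
    rcases Nat.lt_or_ge (TH2.NU.condM v) 1 with h5 | h5
    · have h6 : TH2.NU.condM v = 0 := by omega
      rw [Sgn_zeros h6]
      rw [add_comm, Sgn_zero] at a
      exact a
    · obtain ⟨v', rfl, h7⟩ := exists_one (le_antisymm h4 h5)
      rw [add_comm {1} v', add_assoc, Sgn_zeros h7]
      exact b
  · refine glue hD h1 h2 ?_ ?_ a b
    · refine (h3 (D - 1) (Or.inr (by omega))).1 ?_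
      rw [show D - 1 + 2 = D + 1 by omega]
      exact h1
    · exact (h3 D (Or.inl rfl)).2 h2

theorem condM_sum_zero {ι : Type} (t : Finset ι) (f : ι → Multiset ℕ)
    (h : ∀ i ∈ t, TH2.NU.condM (f i) = 0) : TH2.NU.condM (∑ i ∈ t, f i) = 0 := by
  classical
  induction t using Finset.induction_on with
  | empty => simp [TH2.NU.condM]
  | insert a t ha ih =>
    rw [Finset.sum_insert ha, condM_add, h a (mem_insert_self a t),
      ih fun i hi => h i (mem_insert_of_mem hi)]

/-- **All points (but those without conditions) are replaced by groups.** -/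
theorem glue_set {r d : ℕ} (v : Fin r → Multiset ℕ) (b : Fin r → ℕ) (s : Finset (Fin r))
    (hg : ∀ i ∈ s, Grp (b i) (v i)) (hz : ∀ i, i ∉ s → TH2.NU.condM (v i) = 0)
    (h : ∀ u : Fin r → ℕ, (∀ i ∈ s, u i = b i ∨ u i = b i + 1) → (∀ i, i ∉ s → u i = 0) →
      Sgn (∑ i, {u i}) d) : Sgn (∑ i, v i) d := by
  classical
  have key : ∀ t : Finset (Fin r), t ⊆ s → ∀ u : Fin r → ℕ,
      (∀ i ∈ s, u i = b i ∨ u i = b i + 1) → (∀ i, i ∉ s → u i = 0) →
      Sgn (∑ i, (if i ∈ t then v i else {u i})) d := by
    intro t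
    induction t using Finset.induction_on with
    | empty =>
      intro _ u hu hu0
      simpa using h u hu hu0
    | insert a t ha ih =>
      intro hts u hu hu0
      have has : a ∈ s := hts (mem_insert_self a t)
      have e1 : ∑ i, (if i ∈ insert a t then v i else {u i}) =
          v a + ∑ i ∈ univ.erase a, (if i ∈ t then v i else {u i}) := by
        rw [← Finset.add_sum_erase univ _ (mem_univ a), if_pos (mem_insert_self a t)]
        congr 1
        refine sum_congr rfl fun i hi => ?_
        have hne := ne_of_mem_erase hi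
        simp only [mem_insert, hne, false_or]
      have e2 : ∀ x : ℕ, ∑ i, (if i ∈ t then v i else {Function.update u a x i}) =
          {x} + ∑ i ∈ univ.erase a, (if i ∈ t then v i else {u i}) := by
        intro x
        rw [← Finset.add_sum_erase univ _ (mem_univ a), if_neg ha, Function.update_self]
        congr 1
        refine sum_congr rfl fun i hi => ?_
        rw [Function.update_of_ne (ne_of_mem_erase hi)]
      have hu' : ∀ x, (x = b a ∨ x = b a + 1) → ∀ i ∈ s, Function.update u a x i = b i ∨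
          Function.update u a x i = b i + 1 := by
        intro x hx i his
        by_cases hi : i = a
        · subst hi
          rw [Function.update_self]
          exact hx
        · rw [Function.update_of_ne hi]
          exact hu i his
      have hu0' : ∀ x, ∀ i, i ∉ s → Function.update u a x i = 0 := by
        intro x i his
        have hia : i ≠ a := fun hia => his (by rw [hia]; exact has)
        rw [Function.update_of_ne hia]
        exact hu0 i his
      have hts' : t ⊆ s := (subset_insert a t).trans hts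
      rw [e1]
      refine glue' (hg a has) ?_ ?_
      · rw [← e2]
        exact ih hts' _ (hu' _ (Or.inl rfl)) (hu0' _)
      · rw [← e2]
        exact ih hts' _ (hu' _ (Or.inr rfl)) (hu0' _)
  have h1 := key s (Finset.Subset.refl s) (fun i => if i ∈ s then b i else 0)
    (fun i hi => Or.inl (if_pos hi)) (fun i hi => if_neg hi)
  have e1 : ∑ i, (if i ∈ s then v i else {if i ∈ s then b i else 0}) =
      ∑ i ∈ sᶜ, ({0} : Multiset ℕ) + ∑ i ∈ s, v i := by
    rw [← Finset.sum_add_sum_compl s, add_comm]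
    congr 1
    · refine sum_congr rfl fun i hi => ?_
      rw [if_neg (mem_compl.1 hi), if_neg (mem_compl.1 hi)]
    · exact sum_congr rfl fun i hi => if_pos hi
  have e2 : ∑ i, v i = ∑ i ∈ sᶜ, v i + ∑ i ∈ s, v i := by
    rw [← Finset.sum_add_sum_compl s, add_comm]
  rw [e1, Sgn_zeros (condM_sum_zero _ _ fun i _ => by rw [condM_single]; rfl)] at h1
  rw [e2, Sgn_zeros (condM_sum_zero _ _ fun i hi => hz i (mem_compl.1 hi))]
  exact h1

/-- **All points are replaced by groups.** -/
theorem glue_all {r d : ℕ} (v : Fin r → Multiset ℕ) (b : Fin r → ℕ) (hg : ∀ i, Grp (b i) (v i))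
    (h : ∀ u : Fin r → ℕ, (∀ i, u i = b i ∨ u i = b i + 1) → Sgn (∑ i, {u i}) d) :
    Sgn (∑ i, v i) d :=
  glue_set v b univ (fun i _ => hg i) (fun i hi => absurd (mem_univ i) hi)
    fun u hu _ => h u fun i => hu i (mem_univ i)

end Pool.Agent.J4.H25.Gl
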