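import Pool.Agent.J4.H25.Gl.Glue
import Pool.Agent.J4.H25.Gl.Conv
import Pool.Agent.TH167.TT.Fin9
import Pool.Agent.TH167.SH.Conv
import Pool.Agent.TH759.EV.Pow

set_option autoImplicit false

/-!
# The parents: nine multiplicities larger than two, or nearly equal multiplicities
-/

namespace Pool.Agent.J4.H25.Gl

open Finset Pool.Agent.TH176.Nag Pool.Agent.TH603.Sur Pool.Agent.TH641.UM Pool.Agent.TH2.NU
  Pool.Agent.W609 Pool.Agent.W609.CR Pool.Agent.TH167.SH Pool.Agent.H932R3

/-- reduced classes with at most nine multiplicities larger than two -/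
theorem sgn_red9 {r d : ℕ} {u : Fin (r + 4) → ℕ} (hred : Reduced d u) {S : Finset (Fin (r + 4))}
    (hSc : S.card ≤ 9) (hS : ∀ j, j ∉ S → u j ≤ 2) : Sgn (ms u) d := by
  obtain ⟨K, _, _, P, hP⟩ := exists_generic (r + 4)
  have h1 : Module.finrank K ↥(VS (fun j => aff (P j)) u d) ≤
      (d + 2).choose 2 - ∑ i, (u i + 1).choose 2 := by
    rcases Nat.eq_zero_or_pos (Module.finrank K ↥(VS (fun j => aff (P j)) u d)) with h0 | h0
    · omega
    · have h2 := Pool.Agent.TH167.TT.red9 hred hSc hS hP h0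
      have h3 : Pool.Agent.TH167.SH.chi d u = ((d + 2).choose 2 : ℤ) - ((∑ i, (u i + 1).choose 2 : ℕ) : ℤ) := by
        unfold Pool.Agent.TH167.SH.chi
        push_cast
        rfl
      omega
  rw [← sys_eq] at h1
  have h2 := emp_or_sur (w := u) (P := P) (d := d) (fun i j => hP.ne_zero (i, j)) h1
  refine Sgn_of_or ?_
  rcases h2 with h | h
  · exact Or.inl ((EmpM_ms u _).2 h)
  · exact Or.inr ((SurM_ms u _).2 h)

/-- at most nine large parents -/
theorem sgn_nine {r d : ℕ} (u c : Fin r → ℕ) (huc : ∀ i, u i ≤ c i)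
    (hT : ∀ T : Finset (Fin r), T.card ≤ 3 → ∑ i ∈ T, c i ≤ d)
    (h9 : (univ.filter fun i => 2 < c i).card ≤ 9) : Sgn (∑ i, {u i}) d := by
  classical
  obtain ⟨u', hu'⟩ : ∃ u' : Fin (r + 4) → ℕ, u' = Fin.append u (fun _ : Fin 4 => 0) := ⟨_, rfl⟩
  have a1 : ∀ i, u' (Fin.castAdd 4 i) = u i := fun i => by rw [hu', Fin.append_left]
  have a2 : ∀ i, u' (Fin.natAdd r i) = 0 := fun i => by rw [hu', Fin.append_right]
  have key : ∀ s : Finset (Fin (r + 4)), s.card ≤ 3 → ∑ x ∈ s, u' x ≤ d := by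
    intro s hs
    have e : ∑ x ∈ s, u' x = ∑ i ∈ univ.filter (fun i : Fin r => Fin.castAdd 4 i ∈ s), u i := by
      have h0 : ∑ x ∈ s, u' x = ∑ x, if x ∈ s then u' x else 0 := by
        rw [Finset.sum_ite_mem, Finset.univ_inter]
      rw [h0, Fin.sum_univ_add, Finset.sum_filter]
      simp only [a1, a2, ite_self, Finset.sum_const_zero, add_zero]
    rw [e]
    refine (Finset.sum_le_sum fun i _ => huc i).trans (hT _ (le_trans ?_ hs))
    refine Finset.card_le_card_of_injOn (Fin.castAdd 4) (fun i hi => ?_)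
      (Fin.castAdd_injective r 4).injOn
    exact (Finset.mem_filter.1 hi).2
  have hred : Reduced d u' := by
    intro i j k hij hik hjk
    have h1 := key {i, j, k} Finset.card_le_three
    rw [Finset.sum_insert (by simp [hij, hik]), Finset.sum_insert (by simp [hjk]),
      Finset.sum_singleton] at h1
    omega
  have hms : ms u' = 4 • {0} + ∑ i, {u i} := by
    unfold ms
    rw [Fin.sum_univ_add]
    simp only [a1, a2, Finset.sum_const, Finset.card_univ, Fintype.card_fin]
    rw [add_comm]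
  have h1 := sgn_red9 hred (S := (univ.filter fun i : Fin r => 2 < c i).map (Fin.castAddEmb 4))
    (by rw [Finset.card_map]; exact h9) (by
      intro j
      refine Fin.addCases (fun i hi => ?_) (fun i _ => ?_) j
      · rw [a1]
        by_contra hcon
        apply hi
        rw [Finset.mem_map]
        refine ⟨i, Finset.mem_filter.2 ⟨mem_univ _, ?_⟩, rfl⟩
        have := huc i
        omega
      · rw [a2]
        omega)
  rw [hms] at h1
  exact (Sgn_zeros (by rw [condM_smul, condM_single]; rfl)).1 h1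

/-- nearly equal parents -/
theorem sgn_near {r b : ℕ} (h : Pool.Agent.TH759.EV.NU r) (hb : 1 ≤ b) (u : Fin r → ℕ)
    (hu : ∀ i, u i = b ∨ u i = b + 1) (d : ℕ) : Sgn (∑ i, {u i}) d := by
  have h1 := Pool.Agent.TH759.EV.Ex_fam h hb (Fintype.card_fin r) hu d
  show Sgn (ms u) d
  refine ⟨fun h2 => (EmpM_ms u _).2 (h1.1 ?_), fun h2 => (SurM_ms u _).2 (h1.2 ?_)⟩
  · rw [cond_condM]
    exact h2
  · rw [cond_condM]
    exact h2

end Pool.Agent.J4.H25.Gl
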