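import Pool.Agent.J4.H25.Gl.Cls
import Pool.Agent.Y205.AV.Large
import Pool.Agent.TH442.NF.Exc
import Pool.Agent.TH442.NF.Orbit2

set_option autoImplicit false

/-!
# Quadratic transformations, lines, and monotonicity for the expected dimension in one degree
-/

namespace Pool.Agent.J4.H25.Gl

open Finset Pool.Agent.TH176.Nag Pool.Agent.TH603.Sur Pool.Agent.TH641.UM Pool.Agent.TH2.NU
  Pool.Agent.W609 Pool.Agent.W609.CR Pool.Agent.TH167.SH Pool.Agent.H932R3 Pool.Agent.TH442.NF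

/-- from generic points to `Sgn` -/
theorem sgn_of_generic {K : Type} [Field K] [CharZero K] {n : ℕ} {w : Fin n → ℕ}
    {P : Fin n → Fin 2 → K} (hP : AlgebraicIndependent ℚ (fun ij : Fin n × Fin 2 => P ij.1 ij.2))
    {d : ℕ} (h : ExpDim K w P d) : Sgn (ms w) d := by
  refine Sgn_of_or ?_
  rcases emp_or_sur (fun i j => hP.ne_zero (i, j)) (le_of_eq h) with h | h
  · exact Or.inl ((EmpM_ms _ _).2 h)
  · exact Or.inr ((SurM_ms _ _).2 h)

/-- from `Sgn` to generic points -/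
theorem exp_of_sgn {n : ℕ} {w : Fin n → ℕ} {d : ℕ} (h : Sgn (ms w) d)
    {K : Type} [Field K] [CharZero K] {P : Fin n → Fin 2 → K}
    (hP : AlgebraicIndependent ℚ (fun ij : Fin n × Fin 2 => P ij.1 ij.2)) : ExpDim K w P d := by
  rcases Sgn_or h with h2 | h2
  · obtain ⟨F, hF, hF'⟩ := full_open ((EmpM_ms _ _).1 h2)
    exact hF' P (fun h0 => hF (hP.eq_zero_of_aeval_eq_zero F h0)) d le_rfl
  · obtain ⟨F, hF, hF'⟩ := indep_open ((SurM_ms _ _).1 h2)
    exact hF' P (fun h0 => hF (hP.eq_zero_of_aeval_eq_zero F h0)) d le_rfl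

/-- a quadratic transformation -/
theorem sgn_quad {n : ℕ} {d : ℕ} {w : Fin n → ℕ} {i : Fin 3 → Fin n}
    (hi : Function.Injective i) (p : PS i d w) (h : Sgn (ms (wcr d i w)) (cd i d w)) :
    Sgn (ms w) d := by
  obtain ⟨K, _, _, P, hP⟩ := Pool.Agent.TH167.SH.exists_generic n
  obtain ⟨P', hP', hr⟩ := exists_crel hP hi
  have h1 := exp_of_sgn h hP'
  refine sgn_of_generic hP ?_
  rw [expDim_iff] at h1 ⊢
  rw [hr.dim p] at h1
  rw [h1]
  have h2 := ip_cr hi p p
  have h3 := kk_cr hi p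
  have h4 := two_chi (cd i d w) (wcr d i w)
  rw [h2, h3, ← two_chi] at h4
  rw [mul_left_cancel₀ two_ne_zero h4]

/-- the line through two points -/
theorem sgn_line {n : ℕ} {d : ℕ} {w : Fin n → ℕ} {i j : Fin n} (hij : i ≠ j) (hd : 1 ≤ d)
    (hi : 1 ≤ w i) (hj : 1 ≤ w j) (hij1 : d + 1 ≤ w i + w j)
    (hc : w i + w j = d + 1 ∨ Pool.Agent.TH167.SH.chi (d - 1) (sb i j 1 w) ≤ 0)
    (h : Sgn (ms (sb i j 1 w)) (d - 1)) : Sgn (ms w) d := by
  obtain ⟨K, _, _, P, hP⟩ := Pool.Agent.TH167.SH.exists_generic n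
  have h1 := exp_of_sgn h hP
  refine sgn_of_generic hP ?_
  rw [expDim_iff] at h1 ⊢
  rw [line_k hP hij 1 w d hd hi hj (by omega), h1]
  have key : Pool.Agent.TH167.SH.chi d w + ((w i : ℤ) + w j - d - 1) = Pool.Agent.TH167.SH.chi (d - 1) (sb i j 1 w) := by
    have e0 : (d + 2).choose 2 = (d - 1 + 2).choose 2 + (d + 1) := by
      obtain ⟨e, rfl⟩ : ∃ e, d = e + 1 := ⟨d - 1, by omega⟩
      have h5 := Nat.choose_succ_succ' (e + 2) 1
      rw [Nat.choose_one_right] at h5
      have e1 : (e + 2 + 1).choose (1 + 1) = (e + 1 + 2).choose 2 := rfl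
      have e2 : (e + 2).choose (1 + 1) = (e + 1 - 1 + 2).choose 2 := by
        rw [Nat.add_sub_cancel]
      omega
    have e1 : ∑ l, (w l + 1).choose 2 = ∑ l, (sb i j 1 w l + 1).choose 2 + (w i + w j) := by
      have e3 : ∀ l, (w l + 1).choose 2 = (sb i j 1 w l + 1).choose 2 +
          (if l = i ∨ l = j then w l else 0) := by
        intro l
        unfold sb
        by_cases hl : l = i ∨ l = j
        · rw [if_pos hl, if_pos hl]
          have hl1 : 1 ≤ w l := by
            rcases hl with rfl | rfl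
            · exact hi
            · exact hj
          obtain ⟨x, hx⟩ : ∃ x, w l = x + 1 := ⟨w l - 1, by omega⟩
          rw [hx, Nat.add_sub_cancel]
          have h5 := Nat.choose_succ_succ' (x + 1) 1
          rw [Nat.choose_one_right] at h5
          have e4 : (x + 1 + 1).choose (1 + 1) = (x + 1 + 1).choose 2 := rfl
          have e5 : (x + 1).choose (1 + 1) = (x + 1).choose 2 := rfl
          omega
        · rw [if_neg hl, if_neg hl, add_zero]
      rw [Finset.sum_congr rfl fun l _ => e3 l, Finset.sum_add_distrib]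
      congr 1
      rw [← Finset.sum_filter]
      have e6 : (univ.filter fun l => l = i ∨ l = j) = {i, j} := by
        ext l
        simp
      rw [e6, Finset.sum_pair hij]
    have e7 : ∑ l, ((w l + 1).choose 2 : ℤ) = ((∑ l, (w l + 1).choose 2 : ℕ) : ℤ) := by
      push_cast
      rfl
    have e8 : ∑ l, ((sb i j 1 w l + 1).choose 2 : ℤ) =
        ((∑ l, (sb i j 1 w l + 1).choose 2 : ℕ) : ℤ) := by
      push_cast
      rfl
    unfold Pool.Agent.TH167.SH.chi
    rw [e7, e8, e0, e1]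
    push_cast
    ring
  rcases hc with hc | hc
  · have : Pool.Agent.TH167.SH.chi d w = Pool.Agent.TH167.SH.chi (d - 1) (sb i j 1 w) := by
      have h5 : ((w i : ℤ) + w j - d - 1) = 0 := by
        have : ((w i + w j : ℕ) : ℤ) = ((d + 1 : ℕ) : ℤ) := by rw [hc]
        push_cast at this
        linarith
      rw [h5] at key
      linarith
    rw [this]
  · have h5 : (0 : ℤ) ≤ ((w i : ℤ) + w j - d - 1) := by
      have : ((d + 1 : ℕ) : ℤ) ≤ ((w i + w j : ℕ) : ℤ) := by exact_mod_cast hij1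
      push_cast at this
      linarith
    rw [max_eq_left hc, max_eq_left (by linarith)]

/-- smaller multiplicities -/
theorem sgn_below {n : ℕ} {d : ℕ} {v w : Fin n → ℕ} (hw : ∀ i, w i ≤ v i)
    (hc : ∑ i, (v i + 1).choose 2 ≤ (d + 2).choose 2) (h : Sgn (ms v) d) : Sgn (ms w) d := by
  obtain ⟨K, _, _, P, hP⟩ := Pool.Agent.TH167.SH.exists_generic n
  exact sgn_of_generic hP (exp_mono (exp_of_sgn h hP) hc hw)

/-- larger multiplicities -/
theorem sgn_above {n : ℕ} {d : ℕ} {v w : Fin n → ℕ} (hw : ∀ i, w i ≤ v i)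
    (hc : (d + 2).choose 2 ≤ ∑ i, (w i + 1).choose 2) (h : Sgn (ms w) d) : Sgn (ms v) d := by
  have h1 : EmpM (ms w) (TZ d) := h.1 (by rw [← cond_condM]; exact hc)
  refine Sgn_of_or (Or.inl ((EmpM_ms _ _).2 ?_))
  exact Emp_emb id Function.injective_id hw ((EmpM_ms _ _).1 h1)

/-- larger degrees -/
theorem sgn_up {M : Multiset ℕ} {d e : ℕ} (he : d ≤ e) (hc : TH2.NU.condM M ≤ (d + 2).choose 2)
    (h : Sgn M d) : Sgn M e := by
  refine Sgn_of_or (Or.inr ?_)
  exact Sur.mono (h.2 hc) (Pool.Agent.TH745.MN.TZ_mono he)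

/-- smaller degrees -/
theorem sgn_down {M : Multiset ℕ} {d e : ℕ} (he : e ≤ d) (hc : (d + 2).choose 2 ≤ TH2.NU.condM M)
    (h : Sgn M d) : Sgn M e := by
  refine Sgn_of_or (Or.inl ?_)
  exact (h.1 hc).mono_set (Pool.Agent.TH745.MN.TZ_mono he)

end Pool.Agent.J4.H25.Gl
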